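import Mathlib
import Pool.Agent.W743.GV.Stm

set_option autoImplicit false

namespace Pool.Agent.W400.GV

open Pool.Agent.W743.GV Filter Topology

theorem t_AXI (hROT : S_ROT) : S_AXI := by
  intro U u p hU hp hax
  obtain ⟨c, n0, hn0, hA⟩ := hax
  have hn0' : ‖n0‖ ≠ 0 := norm_ne_zero_iff.2 hn0
  set n : E3 := ‖n0‖⁻¹ • n0 with hn
  have hn1 : ‖n‖ = 1 := by
    rw [hn, norm_smul, norm_inv, norm_norm, inv_mul_cancel₀ hn0']
  have hn0n : n0 = ‖n0‖ • n := by
    rw [hn, smul_smul, mul_inv_cancel₀ hn0', one_smul]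
  refine ⟨c, n, ?_, ?_⟩
  · intro h
    rw [h, norm_zero] at hn1
    exact zero_ne_one hn1
  · intro x hx
    have hG : HasDerivAt (fun t : ℝ => c + (Real.cos t • (x - c) + Real.sin t • crs n (x - c) +
        ((1 - Real.cos t) * inner ℝ n (x - c)) • n)) (crs n (x - c)) 0 := by
      have h1 : HasDerivAt (fun t : ℝ => Real.cos t • (x - c)) (-Real.sin 0 • (x - c)) 0 :=
        (Real.hasDerivAt_cos 0).smul_const (x - c)
      have h2 : HasDerivAt (fun t : ℝ => Real.sin t • crs n (x - c))
          (Real.cos 0 • crs n (x - c)) 0 := (Real.hasDerivAt_sin 0).smul_const _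
      have h3 : HasDerivAt (fun t : ℝ => ((1 - Real.cos t) * inner ℝ n (x - c)) • n)
          (((-(-Real.sin 0)) * inner ℝ n (x - c)) • n) 0 :=
        (((Real.hasDerivAt_cos 0).const_sub 1).mul_const _).smul_const n
      have h4 := ((h1.add h2).add h3).const_add c
      have e : -Real.sin 0 • (x - c) + Real.cos 0 • crs n (x - c) +
          ((-(-Real.sin 0)) * inner ℝ n (x - c)) • n = crs n (x - c) := by
        rw [Real.sin_zero, Real.cos_zero]
        simp
      rw [e] at h4
      exact h4
    have hG0 : c + (Real.cos 0 • (x - c) + Real.sin 0 • crs n (x - c) +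
        ((1 - Real.cos 0) * inner ℝ n (x - c)) • n) = x := by
      rw [Real.sin_zero, Real.cos_zero]
      simp
    have hpx : HasFDerivAt p (fderiv ℝ p x) (c + (Real.cos 0 • (x - c) +
        Real.sin 0 • crs n (x - c) + ((1 - Real.cos 0) * inner ℝ n (x - c)) • n)) := by
      rw [hG0]; exact (hp x hx).hasFDerivAt
    have hcomp := hpx.comp_hasDerivAt (0 : ℝ) hG
    have hev : (fun _ : ℝ => p x) =ᶠ[𝓝 (0 : ℝ)] (p ∘ fun t : ℝ => c + (Real.cos t • (x - c) +
        Real.sin t • crs n (x - c) + ((1 - Real.cos t) * inner ℝ n (x - c)) • n)) := by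
      have hmem : ∀ᶠ t in 𝓝 (0 : ℝ), (c + (Real.cos t • (x - c) +
        Real.sin t • crs n (x - c) + ((1 - Real.cos t) * inner ℝ n (x - c)) • n)) ∈ U := by
        refine hG.continuousAt.eventually_mem ?_
        simp only [hG0]
        exact hU.mem_nhds hx
      filter_upwards [hmem] with t ht
      obtain ⟨A, hAS, hAn, hAv⟩ := hROT n hn1 t
      have hAn0 : Matrix.toEuclideanLin A n0 = n0 := by
        conv_lhs => rw [hn0n]
        rw [map_smul, hAn, ← hn0n]
      have hval : c + Matrix.toEuclideanLin A (x - c) = c + (Real.cos t • (x - c) +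
        Real.sin t • crs n (x - c) + ((1 - Real.cos t) * inner ℝ n (x - c)) • n) := by
        rw [hAv]
      have h := (hA A hAS hAn0 x hx (by rw [hval]; exact ht)).1
      rw [hval] at h
      exact h.symm
    have hconst : HasDerivAt (p ∘ fun t : ℝ => c + (Real.cos t • (x - c) +
        Real.sin t • crs n (x - c) + ((1 - Real.cos t) * inner ℝ n (x - c)) • n)) 0 0 :=
      (hasDerivAt_const (0 : ℝ) (p x)).congr_of_eventuallyEq hev.symm
    exact hcomp.unique hconst

end Pool.Agent.W400.GV
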